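import Pool.Agent.R882.UB
import Pool.Agent.R882.CovGT
import Pool.Agent.TH466.QG.Equiv

/-!
A variety with a nonzero pluricanonical form is not covered by lines with constant equations.
-/

set_option autoImplicit false
set_option linter.unusedSectionVars false
set_option linter.overlappingInstances false

open FF Pool.Agent.W619.PQ Pool.Agent.W619.PL Pool.Agent.W619.TW Pool.Agent.W603.LV
  Pool.Agent.W619.Y
open Pool.Agent.W602.GT (Divisorial RegAt IsPluri)

namespace Pool.Agent.K4H25.AB

open Pool.Agent.TH466.QG (pullPl reg_pullPl pushD pushD_apply pushD_symm)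

/-- transport of a regular pluricanonical form -/
theorem form_equiv {F F' : Type} [Field F] [Field F'] [Algebra ℂ F] [Algebra ℂ F']
    (e : F ≃ₐ[ℂ] F') {w N : ℕ} {ω : (Fin w → Derivation ℂ F F) → F} (hω : IsPluri N ω)
    (hreg : ∀ P : Place ℂ F, Divisorial w P → RegAt P ω) (h0 : ∃ D, ω D ≠ 0) :
    ∃ ω' : (Fin w → Derivation ℂ F' F') → F', IsPluri N ω' ∧
      (∀ P : Place ℂ F', Divisorial w P → RegAt P ω') ∧ ∃ D, ω' D ≠ 0 := by
  obtain ⟨D, hD0⟩ := h0
  refine ⟨fun D' => e (ω (fun i => pushD e.symm (D' i))), fun A D' => ?_, fun P hP D' hD' => ?_,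
    fun i => pushD e (D i), ?_⟩
  · have h1 : (fun i => pushD e.symm (∑ l, A i l • D' l)) =
        fun i => ∑ l, (A.map e.symm) i l • pushD e.symm (D' l) := by
      funext i
      ext x
      rw [pushD_apply, Pool.Agent.W357.PG.sum_apply', Pool.Agent.W357.PG.sum_apply', map_sum]
      refine Finset.sum_congr rfl fun l _ => ?_
      rw [Derivation.coe_smul, Pi.smul_apply, smul_eq_mul, map_mul, Matrix.map_apply,
        Derivation.coe_smul, Pi.smul_apply, smul_eq_mul, pushD_apply]
    change e (ω (fun i => pushD e.symm (∑ l, A i l • D' l))) = _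
    rw [h1, hω, map_mul, map_pow]
    congr 2
    have h2 := RingHom.map_det (e : F →+* F') (A.map e.symm)
    change e _ = _ at h2
    rw [h2]
    congr 1
    ext i l
    simp [RingHom.mapMatrix_apply]
  · change P.Reg (e _)
    rw [← reg_pullPl e P]
    refine hreg (pullPl e P) ?_ _ fun i f hf => ?_
    · obtain ⟨u, hu⟩ := hP
      refine ⟨fun i => e.symm (u i), fun G hG => ?_⟩
      have h1 : MvPolynomial.aeval (fun i => e.symm (u i)) G = e.symm (MvPolynomial.aeval u G) := by
        rw [← AlgEquiv.coe_toAlgHom, ← MvPolynomial.comp_aeval_apply]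
      rw [h1]
      refine ⟨by simpa using (hu G hG).1, ?_⟩
      change P.ord (e (e.symm _)) = 0
      rw [AlgEquiv.apply_symm_apply]
      exact (hu G hG).2
    · rw [reg_pullPl] at hf ⊢
      rw [pushD_apply, AlgEquiv.symm_symm, AlgEquiv.apply_symm_apply]
      exact hD' i _ hf
  · simp only [pushD_symm]
    simpa using hD0

/-- the points `a + τ b`, with constants `a`, `b` and a nonconstant `τ`, do not generate the
function field of a variety with a nonzero pluricanonical form, unless `b = 0` -/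
theorem form_const {K : Type} [Field K] [Algebra ℂ K] [Algebra.EssFiniteType ℂ K] {N n d m : ℕ}
    (hK : Algebra.trdeg ℂ K = n) {x a b : Fin N → K} {τ : K} {D' : Derivation ℂ K K}
    (hx : ∀ j, x j = a j + τ * b j) (ha : ∀ j, D' (a j) = 0) (hb : ∀ j, D' (b j) = 0)
    (hτ : D' τ ≠ 0)
    (hd : Algebra.trdeg ℂ (IntermediateField.adjoin ℂ (Set.range x)) = d) (hm : 1 ≤ m)
    {η : (Fin d → Derivation ℂ (IntermediateField.adjoin ℂ (Set.range x))
      (IntermediateField.adjoin ℂ (Set.range x))) → IntermediateField.adjoin ℂ (Set.range x)}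
    (hη : IsPluri m η)
    (hreg : ∀ P : Place ℂ (IntermediateField.adjoin ℂ (Set.range x)), Divisorial d P → RegAt P η)
    (h0 : ∃ D, η D ≠ 0) : ∀ j, b j = 0 := by
  classical
  obtain ⟨R, hR⟩ : ∃ R : IntermediateField ℂ K,
    R = IntermediateField.adjoin ℂ (Set.range a ∪ Set.range b ∪ {τ}) := ⟨_, rfl⟩
  have haR : ∀ j, a j ∈ R := fun j => by
    rw [hR]
    exact IntermediateField.subset_adjoin _ _ (Or.inl (Or.inl ⟨j, rfl⟩))
  have hbR : ∀ j, b j ∈ R := fun j => by
    rw [hR]
    exact IntermediateField.subset_adjoin _ _ (Or.inl (Or.inr ⟨j, rfl⟩))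
  have hτR : τ ∈ R := by
    rw [hR]
    exact IntermediateField.subset_adjoin _ _ (Or.inr rfl)
  have hle : IntermediateField.adjoin ℂ (Set.range x) ≤ R := by
    rw [IntermediateField.adjoin_le_iff]
    rintro _ ⟨j, rfl⟩
    rw [hx j]
    exact add_mem (haR j) (mul_mem hτR (hbR j))
  -- the dimension of `R`
  obtain ⟨n1, hn1⟩ : ∃ n1 : ℕ, Algebra.trdeg ℂ R = n1 := by
    have h1 : Algebra.trdeg ℂ R ≤ n := by
      rw [← hK]
      exact trdeg_le_of_injective R.val R.val.toRingHom.injective
    obtain ⟨n1, h2⟩ := Cardinal.lt_aleph0.1 (h1.trans_lt Cardinal.natCast_lt_aleph0)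
    exact ⟨n1, h2⟩
  obtain ⟨t, ht⟩ : ∃ t : R, t = ⟨τ, hτR⟩ := ⟨_, rfl⟩
  obtain ⟨M, hM⟩ : ∃ M : IntermediateField ℂ R, M = IntermediateField.adjoin ℂ
    (Set.range (fun j => (⟨a j, haR j⟩ : R)) ∪ Set.range (fun j => (⟨b j, hbR j⟩ : R))) :=
    ⟨_, rfl⟩
  have hMD : ∀ c ∈ M, D' (c : K) = 0 := by
    let C0 : IntermediateField ℂ R :=
      { carrier := {f | D' (f : K) = 0}
        mul_mem' := fun {f g} hf hg => by
          change D' ((f : K) * g) = 0
          rw [D'.leibniz, show D' (f : K) = 0 from hf, show D' (g : K) = 0 from hg]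
          simp
        add_mem' := fun {f g} hf hg => by
          change D' ((f : K) + g) = 0
          rw [map_add, show D' (f : K) = 0 from hf, show D' (g : K) = 0 from hg, add_zero]
        algebraMap_mem' := fun c => D'.map_algebraMap c
        inv_mem' := fun f hf => by
          change D' ((f : K)⁻¹) = 0
          rw [Derivation.leibniz_inv, show D' (f : K) = 0 from hf, smul_zero] }
    have h1 : M ≤ C0 := by
      rw [hM, IntermediateField.adjoin_le_iff]
      rintro _ (⟨j, rfl⟩ | ⟨j, rfl⟩)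
      · exact ha j
      · exact hb j
    exact fun c hc => h1 hc
  have htr : Transcendental M t := by
    intro halg
    apply hτ
    have h1 : IsAlgebraic (M.map R.val) τ := by
      obtain ⟨p, hp0, hp⟩ := halg
      let φ : M →+* M.map R.val :=
        (R.val.toRingHom.comp M.val.toRingHom).codRestrict _ fun c =>
          ⟨(c : R), c.2, rfl⟩
      refine ⟨p.map φ, (Polynomial.map_ne_zero_iff φ.injective).2 hp0, ?_⟩
      rw [Polynomial.aeval_def, Polynomial.eval₂_map]
      have h2 := congrArg R.val hp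
      rw [map_zero, Polynomial.aeval_def] at h2
      change R.val.toRingHom _ = 0 at h2
      rw [Polynomial.hom_eval₂] at h2
      rw [ht] at h2
      exact h2
    refine Pool.Agent.R882.WR.der_alg (E := M.map R.val) D' ?_ h1
    rintro _ ⟨c, hc, rfl⟩
    exact hMD c hc
  have htop : IntermediateField.adjoin M {t} = ⊤ := by
    rw [eq_top_iff]
    intro z _
    have h1 : ((IntermediateField.adjoin M {t}).restrictScalars ℂ).map R.val = R := by
      apply le_antisymm
      · rintro _ ⟨c, -, rfl⟩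
        exact c.2
      · conv_lhs => rw [hR]
        rw [IntermediateField.adjoin_le_iff]
        rintro _ ((⟨j, rfl⟩ | ⟨j, rfl⟩) | hz)
        · refine ⟨⟨a j, haR j⟩, ?_, rfl⟩
          exact (IntermediateField.adjoin M {t}).algebraMap_mem ⟨⟨a j, haR j⟩, by
            rw [hM]
            exact IntermediateField.subset_adjoin _ _ (Or.inl ⟨j, rfl⟩)⟩
        · refine ⟨⟨b j, hbR j⟩, ?_, rfl⟩
          exact (IntermediateField.adjoin M {t}).algebraMap_mem ⟨⟨b j, hbR j⟩, by
            rw [hM]
            exact IntermediateField.subset_adjoin _ _ (Or.inr ⟨j, rfl⟩)⟩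
        · rw [Set.mem_singleton_iff] at hz
          refine ⟨t, IntermediateField.mem_adjoin_simple_self M t, ?_⟩
          rw [hz, ht]
          rfl
    have h2 : (z : K) ∈ ((IntermediateField.adjoin M {t}).restrictScalars ℂ).map R.val := by
      rw [h1]
      exact z.2
    obtain ⟨c, hc, hcz⟩ := h2
    have h3 : c = z := Subtype.ext hcz
    rw [← h3]
    exact hc
  -- the derivation along the ruling
  obtain ⟨-, EE, i0, -, -, -, -, hE0M, hEt, -⟩ := Pool.Agent.R882.UA.frame (k := ℂ) hn1 htr htop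
  obtain ⟨D, hD⟩ : ∃ D : Derivation ℂ R R, D = EE i0 := ⟨_, rfl⟩
  rw [← hD] at hEt hE0M
  -- the form
  have hxR : ∀ j, x j ∈ R := fun j => hle (IntermediateField.subset_adjoin _ _ ⟨j, rfl⟩)
  obtain ⟨E1, hE1⟩ : ∃ E1 : IntermediateField ℂ R, E1 = IntermediateField.adjoin ℂ
    (Set.range fun j => (⟨x j, hxR j⟩ : R)) := ⟨_, rfl⟩
  obtain ⟨e⟩ : Nonempty (IntermediateField.adjoin ℂ (Set.range x) ≃ₐ[ℂ] E1) := by
    have h1 : E1.map R.val = IntermediateField.adjoin ℂ (Set.range x) := by
      rw [hE1, IntermediateField.adjoin_map, ← Set.range_comp]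
      rfl
    have h2 := (IntermediateField.equivMap E1 R.val).symm
    rw [h1] at h2
    exact ⟨h2⟩
  have hd1 : Algebra.trdeg ℂ E1 = d := by rw [← hd]; exact e.symm.trdeg_eq
  obtain ⟨η1, hη1, hreg1, D0, hD0⟩ := form_equiv e hη hreg h0
  obtain ⟨y, F, hy, hF⟩ := Pool.Agent.Y172.exists_crd (k := ℂ) (K := E1) hd1
  have haF : η1 F ≠ 0 := by
    intro h
    apply hD0
    have h1 := Pool.Agent.Y172.pluri_coord hy hF (m := m) (ω := η1) hη1 D0
    rw [h1, h, mul_zero]
  have haR' : ((η1 F : E1) : R) ≠ 0 := fun h => haF (Subtype.ext h)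
  have hyR : AlgebraicIndependent ℂ (fun i => (y i : R)) :=
    hy.1.map' (f := E1.val) E1.val.toRingHom.injective
  have hessR : Algebra.EssFiniteType ℂ R := by
    rw [IntermediateField.essFiniteType_iff, hR]
    exact ⟨(((Set.finite_range a).union (Set.finite_range b)).union
      (Set.finite_singleton τ)).toFinset, by rw [Set.Finite.coe_toFinset]⟩
  have hessE : Algebra.EssFiniteType ℂ E1 := by
    rw [IntermediateField.essFiniteType_iff, hE1]
    exact ⟨(Set.finite_range fun j => (⟨x j, hxR j⟩ : R)).toFinset,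
      by rw [Set.Finite.coe_toFinset]⟩
  have hgood : ∀ w : Place ℂ R, IsDivisorial w n1 →
      YGood d m w (fun i => (y i : R)) ((η1 F : E1) : R) := by
    intro w hw
    exact pYLOC ℂ R E1 d n1 m hd1 hn1 (fun y hy => fin_over y hy) η1 hη1 hreg1 y F hy hF w hw
  have hDy := Pool.Agent.R882.UA.ruled_ygood (k := ℂ) hn1 htr htop hyR haR' hm hgood hEt hE0M
  -- the derivation vanishes on the subfield
  have hDE : ∀ c : E1, D (c : R) = 0 := by
    intro c
    have h1 := Pool.Agent.R882.WR.der_adjoin (x := fun i => (y i : R)) D hDy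
    refine Pool.Agent.R882.WR.der_alg D h1 ?_
    have h2 : IsAlgebraic (IntermediateField.adjoin ℂ (Set.range y)) c :=
      hy.isAlgebraic_field.isAlgebraic c
    obtain ⟨p, hp0, hp⟩ := h2
    have h3 : (IntermediateField.adjoin ℂ (Set.range y)).map E1.val =
        IntermediateField.adjoin ℂ (Set.range fun i => (y i : R)) := by
      rw [IntermediateField.adjoin_map, ← Set.range_comp]
      rfl
    rw [← h3]
    let φ : IntermediateField.adjoin ℂ (Set.range y) →+*
        (IntermediateField.adjoin ℂ (Set.range y)).map E1.val :=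
      (E1.val.toRingHom.comp (IntermediateField.adjoin ℂ (Set.range y)).val.toRingHom).codRestrict
        _ fun c => ⟨(c : E1), c.2, rfl⟩
    refine ⟨p.map φ, (Polynomial.map_ne_zero_iff φ.injective).2 hp0, ?_⟩
    rw [Polynomial.aeval_def, Polynomial.eval₂_map]
    have h4 := congrArg E1.val hp
    rw [map_zero, Polynomial.aeval_def] at h4
    change E1.val.toRingHom _ = 0 at h4
    rw [Polynomial.hom_eval₂] at h4
    exact h4
  intro j
  have h1 : D (⟨x j, hxR j⟩ : R) = 0 := by
    refine hDE ⟨⟨x j, hxR j⟩, ?_⟩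
    rw [hE1]
    exact IntermediateField.subset_adjoin _ _ ⟨j, rfl⟩
  have h2 : (⟨x j, hxR j⟩ : R) = ⟨a j, haR j⟩ + t * ⟨b j, hbR j⟩ := by
    apply Subtype.ext
    rw [ht]
    exact hx j
  have h3 : D (⟨a j, haR j⟩ : R) = 0 := hE0M ⟨⟨a j, haR j⟩, by
    rw [hM]
    exact IntermediateField.subset_adjoin _ _ (Or.inl ⟨j, rfl⟩)⟩
  have h4 : D (⟨b j, hbR j⟩ : R) = 0 := hE0M ⟨⟨b j, hbR j⟩, by
    rw [hM]
    exact IntermediateField.subset_adjoin _ _ (Or.inr ⟨j, rfl⟩)⟩
  rw [h2, map_add, D.leibniz, h3, h4, hEt, smul_zero, zero_add, zero_add, smul_eq_mul,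
    mul_one] at h1
  exact congrArg Subtype.val h1

end Pool.Agent.K4H25.AB
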