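import Pool.Agent.K4H25.AB.Kod
import Pool.Agent.K4H25.AB.Cst

/-!
Maps whose degree is at most the degree of the forms: the case that the base has a pluricanonical
form.
-/

set_option autoImplicit false
set_option linter.unusedSectionVars false
set_option linter.overlappingInstances false

open FF Module Pool.Agent.W602.GT Pool.Agent.W603.LV Pool.Agent.W619.PQ
open Pool.Agent.Y184.NT Pool.Agent.W619.TW Pool.Agent.R882.LT

namespace Pool.Agent.K4H25.AB

open Pool.Agent.Y954.NT (exists_lift trace_der rel2 line_of)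

/-- A vector field which preserves the ratios of the traces and moves the points of a fibre: the
points are on a line whose equations are constant along the vector field. -/
theorem line_const (hCB2 : StCB2) {L K : Type} [Field L] [Field K] [Algebra ℂ L] [Algebra ℂ K]
    [Algebra L K] [IsScalarTower ℂ L K] [FiniteDimensional L K] {N m : ℕ}
    {x : Fin N → K} {j0 : Fin N} (hj0 : x j0 = 1)
    (hgenL : IntermediateField.adjoin L (Set.range x) = ⊤) (hm : 1 ≤ m)
    (hfin : Module.finrank L K ≤ m)
    {h : K} (hh : h ≠ 0) {T : (Fin m → Fin N) → L}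
    (hT : ∀ f, T f = Algebra.trace L K ((∏ k, x (f k)) * h)) (D : Derivation ℂ L L)
    (hTD : ∀ f g, T f * D (T g) = T g * D (T f)) (D' : Derivation ℂ K K)
    (hD' : ∀ f, D' (algebraMap L K f) = algebraMap L K (D f)) (hx : ∃ j, D' (x j) ≠ 0) :
    ∃ (a b : Fin N → L) (j1 : Fin N),
      (∀ j, x j = algebraMap L K (a j) + x j1 * algebraMap L K (b j)) ∧ b j1 = 1 ∧
      (∀ j, D (a j) = 0) ∧ (∀ j, D (b j) = 0) ∧ D' (x j1) ≠ 0 := by
  classical
  have hchar : CharZero L := charZero_of_injective_algebraMap (algebraMap ℂ L).injective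
  let Ω := AlgebraicClosure L
  have hcard : Fintype.card (K →ₐ[L] Ω) = finrank L K := AlgHom.card L K Ω
  have hpos : 0 < finrank L K := finrank_pos
  -- a nonzero trace
  obtain ⟨g, hg⟩ : ∃ g, T g ≠ 0 := by
    by_contra hcon
    push Not at hcon
    have h1 := (Pool.Agent.Y614.NT.stLine Pool.Agent.Y153.NT.stCB L K N m x j0 hj0 hgenL h hh
      (fun f => by rw [← hT, hcon]) (by omega)).1
    omega
  obtain ⟨lam, hlam⟩ : ∃ lam : L, ∀ f, D (T f) = lam * T f := by
    refine ⟨D (T g) / T g, fun f => ?_⟩
    have h1 := hTD f g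
    rw [div_mul_eq_mul_div, eq_div_iff hg]
    linear_combination -h1
  have hx0 : D' (x j0) = 0 := by
    rw [hj0]
    exact D'.map_one_eq_zero
  -- the relation
  have htr : ∀ f : Fin m → Fin N, Algebra.trace L K ((D' h - algebraMap L K lam * h) *
      ∏ k, x (f k) + h * ∑ j, D' (x (f j)) * ∏ k ∈ Finset.univ.erase j, x (f k)) = 0 := by
    intro f
    have hprod : ∀ s : Finset (Fin m), D' (∏ k ∈ s, x (f k)) =
        ∑ j ∈ s, D' (x (f j)) * ∏ k ∈ s.erase j, x (f k) := by
      intro s
      induction s using Finset.induction_on with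
      | empty => simp [D'.map_one_eq_zero]
      | insert i s hi ih =>
        rw [Finset.prod_insert hi, D'.leibniz, ih, Finset.sum_insert hi, Finset.erase_insert hi,
          smul_eq_mul, smul_eq_mul, Finset.mul_sum, add_comm, mul_comm (∏ k ∈ s, x (f k))]
        congr 1
        refine Finset.sum_congr rfl fun j hj => ?_
        have hji : i ≠ j := fun e => hi (e ▸ hj)
        rw [Finset.erase_insert_of_ne hji, Finset.prod_insert
          (fun e => hi (Finset.mem_of_mem_erase e))]
        ring
    have h1 : D' ((∏ k, x (f k)) * h) = D' h * ∏ k, x (f k) +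
        h * ∑ j, D' (x (f j)) * ∏ k ∈ Finset.univ.erase j, x (f k) := by
      rw [D'.leibniz, hprod, smul_eq_mul, smul_eq_mul]
      ring
    have h2 := trace_der hD' ((∏ k, x (f k)) * h)
    rw [← hT, hlam, h1] at h2
    have h3 : (D' h - algebraMap L K lam * h) * ∏ k, x (f k) +
        h * ∑ j, D' (x (f j)) * ∏ k ∈ Finset.univ.erase j, x (f k) =
        (D' h * ∏ k, x (f k) + h * ∑ j, D' (x (f j)) * ∏ k ∈ Finset.univ.erase j, x (f k)) -
        lam • ((∏ k, x (f k)) * h) := by
      rw [Algebra.smul_def]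
      ring
    rw [h3, map_sub, map_smul, h2, ← hT, smul_eq_mul, sub_self]
  obtain ⟨hm2, hspan⟩ := hCB2 Ω N (K →ₐ[L] Ω) m Finset.univ (fun σ j => σ (x j))
    (fun σ j => σ (D' (x j))) (fun σ => σ (D' h - algebraMap L K lam * h)) (fun σ => σ h)
    (by
      rw [← Finset.card_pos, Finset.card_univ, hcard]
      exact finrank_pos)
    (fun σ _ => by
      rw [_root_.map_ne_zero]
      exact hh)
    (fun σ _ => by
      rw [LinearIndependent.pair_iff]
      intro s t hst
      have h1 := congrFun hst j0
      simp only [Pi.add_apply, Pi.smul_apply, smul_eq_mul, hj0, map_one, mul_one,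
        Pi.zero_apply, D'.map_one_eq_zero, map_zero, mul_zero, add_zero] at h1
      obtain ⟨j, hj⟩ := hx
      have h2 := congrFun hst j
      simp only [Pi.add_apply, Pi.smul_apply, smul_eq_mul, Pi.zero_apply, h1, zero_mul,
        zero_add] at h2
      exact ⟨h1, (mul_eq_zero.1 h2).resolve_right fun e => hj ((_root_.map_eq_zero σ).1 e)⟩)
    (fun σ _ σ' _ hne => by
      rw [LinearIndependent.pair_iff]
      intro s t hst
      have h1 := congrFun hst j0
      simp only [Pi.add_apply, Pi.smul_apply, smul_eq_mul, hj0, map_one, mul_one,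
        Pi.zero_apply] at h1
      have h2 : t = -s := by linear_combination h1
      subst h2
      by_cases hs : s = 0
      · simp [hs]
      · exfalso
        apply hne
        apply Pool.Agent.Y614.NT.emb_ext x hgenL
        intro j
        have h3 := congrFun hst j
        simp only [Pi.add_apply, Pi.smul_apply, smul_eq_mul, Pi.zero_apply] at h3
        have h4 : s * (σ (x j) - σ' (x j)) = 0 := by linear_combination h3
        rcases mul_eq_zero.1 h4 with h5 | h5
        · exact absurd h5 hs
        · exact sub_eq_zero.1 h5)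
    (fun l => rel2 x (fun j => D' (x j)) h _ htr l)
    (by rw [Finset.card_univ, hcard]; omega)
  rw [Finset.card_univ, hcard] at hm2
  obtain ⟨a, b, j1, hab, a0, b0, a1, b1, uniq, σ1, σ2, h12⟩ := line_of x j0 hj0 hgenL (by omega)
    (fun σ1 σ2 hne σ => (hspan σ1 (Finset.mem_univ _) σ2 (Finset.mem_univ _) hne σ
      (Finset.mem_univ _)).1)
  -- the derivative of the coordinates
  have hDx : ∀ j, D' (x j) = D' (x j1) * algebraMap L K (b j) := by
    intro j
    have hne12 : σ1 ≠ σ2 := fun e => h12 (by rw [e])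
    have h1 := (hspan σ1 (Finset.mem_univ _) σ2 (Finset.mem_univ _) hne12 σ1
      (Finset.mem_univ _)).2
    rw [Submodule.mem_span_pair] at h1
    obtain ⟨s, t, hst⟩ := h1
    have c0 := congrFun hst j0
    have c1 := congrFun hst j1
    have c2 := congrFun hst j
    simp only [Pi.add_apply, Pi.smul_apply, smul_eq_mul, hj0, map_one, mul_one,
      D'.map_one_eq_zero, map_zero] at c0 c1 c2
    have e1 : σ1 (x j) = algebraMap L Ω (a j) + σ1 (x j1) * algebraMap L Ω (b j) := by
      conv_lhs => rw [hab j]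
      rw [map_add, map_mul, AlgHom.commutes, AlgHom.commutes]
    have e2 : σ2 (x j) = algebraMap L Ω (a j) + σ2 (x j1) * algebraMap L Ω (b j) := by
      conv_lhs => rw [hab j]
      rw [map_add, map_mul, AlgHom.commutes, AlgHom.commutes]
    apply σ1.toRingHom.injective
    change σ1 (D' (x j)) = σ1 (D' (x j1) * algebraMap L K (b j))
    rw [map_mul, AlgHom.commutes, ← c2, ← c1, e1, e2]
    linear_combination (algebraMap L Ω (a j)) * c0
  have hDab : ∀ j, D (a j) = 0 ∧ D (b j) = 0 := by
    intro j
    apply uniq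
    have h1 : D' (x j) = algebraMap L K (D (a j)) + (D' (x j1) * algebraMap L K (b j) +
        x j1 * algebraMap L K (D (b j))) := by
      conv_lhs => rw [hab j]
      rw [map_add, D'.leibniz, hD', hD', smul_eq_mul, smul_eq_mul]
      ring
    rw [hDx j] at h1
    linear_combination -h1
  refine ⟨a, b, j1, hab, b1, fun j => (hDab j).1, fun j => (hDab j).2, fun h0 => ?_⟩
  obtain ⟨j, hj⟩ := hx
  apply hj
  rw [hDx j, h0, zero_mul]

section

variable {L K : Type} [Field L] [Field K] [Algebra ℂ L] [Algebra ℂ K] [Algebra L K]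
  [IsScalarTower ℂ L K] [FiniteDimensional L K] [Algebra.EssFiniteType ℂ L]
  [Algebra.EssFiniteType ℂ K] {n N m d : ℕ}

/-- **Kodaira dimension from traces**, for degrees up to `m` and a base which has a nonzero
pluricanonical form. -/
theorem kod_form (hL : Algebra.trdeg ℂ L = n)
    {x : Fin N → K} {j0 : Fin N} (hj0 : x j0 = 1) {ω : (Fin n → Derivation ℂ K K) → K}
    (hω : IsPluri 1 ω)
    (hreg : ∀ (f : Fin m → Fin N) (P : Place ℂ K), Divisorial n P →
      SecAt (fun _ => False) P (fun D => (∏ k, x (f k)) * ω D))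
    (hd : Algebra.trdeg ℂ (IntermediateField.adjoin ℂ (Set.range x)) = (d : ℕ))
    {y : Fin n → L} {E : Fin n → Derivation ℂ L L} (hy : IsTranscendenceBasis ℂ y)
    (hE : ∀ i j, E i (y j) = if i = j then 1 else 0) {E' : Fin n → Derivation ℂ K K}
    (hE' : ∀ i f, E' i (algebraMap L K f) = algebraMap L K (E i f)) (hm1 : 1 ≤ m)
    (hm : Module.finrank L (IntermediateField.adjoin L (Set.range x)) ≤ m)
    (hne : Algebra.trace (IntermediateField.adjoin L (Set.range x)) K (ω E') ≠ 0)
    {q : ℕ} (hq : 1 ≤ q)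
    {η : (Fin d → Derivation ℂ (IntermediateField.adjoin ℂ (Set.range x))
      (IntermediateField.adjoin ℂ (Set.range x))) → IntermediateField.adjoin ℂ (Set.range x)}
    (hη : IsPluri q η)
    (hηr : ∀ P : Place ℂ (IntermediateField.adjoin ℂ (Set.range x)), Divisorial d P → RegAt P η)
    (h0 : ∃ D, η D ≠ 0) :
    Pool.Agent.W619.Y.KodTrB ℂ L n (fun _ => False) d := by
  classical
  obtain ⟨x', T, hx', hx0, hgen, hT, hθr, hT0, hd'⟩ :=
    tr_data hL hj0 hω hreg hy hE hE' hm hne
  have htw : IsScalarTower ℂ (IntermediateField.adjoin L (Set.range x)) K :=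
    IsScalarTower.of_algebraMap_eq fun r => rfl
  have hess : Algebra.EssFiniteType ℂ (IntermediateField.adjoin L (Set.range x)) :=
    Pool.Agent.TH466.QG.ess_below (K := K)
  have htrF : Algebra.trdeg ℂ (IntermediateField.adjoin L (Set.range x)) = n := by
    rw [← hL, ← trdeg_add_eq ℂ L (A := IntermediateField.adjoin L (Set.range x)),
      trdeg_eq_zero (R := L) (A := IntermediateField.adjoin L (Set.range x)), add_zero]
  -- the form on the field generated by the `x'`
  let φ : IntermediateField.adjoin L (Set.range x) →ₐ[ℂ] K :=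
    IsScalarTower.toAlgHom ℂ (IntermediateField.adjoin L (Set.range x)) K
  have h1 : (IntermediateField.adjoin ℂ (Set.range x')).map φ =
      IntermediateField.adjoin ℂ (Set.range x) := by
    rw [IntermediateField.adjoin_map]
    congr 1
    ext z
    constructor
    · rintro ⟨_, ⟨j, rfl⟩, rfl⟩
      exact ⟨j, (hx' j).symm⟩
    · rintro ⟨j, rfl⟩
      exact ⟨x' j, ⟨j, rfl⟩, hx' j⟩
  obtain ⟨e⟩ : Nonempty (IntermediateField.adjoin ℂ (Set.range x) ≃ₐ[ℂ]
      IntermediateField.adjoin ℂ (Set.range x')) := by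
    rw [← h1]
    exact ⟨(IntermediateField.equivMap (IntermediateField.adjoin ℂ (Set.range x')) φ).symm⟩
  obtain ⟨η', hη', hηr', h0'⟩ := form_equiv e hη hηr h0
  have hsep : ∀ D : Derivation ℂ L L, (∀ f g, T f * D (T g) = T g * D (T f)) →
      ∀ D' : Derivation ℂ (IntermediateField.adjoin L (Set.range x))
        (IntermediateField.adjoin L (Set.range x)),
        (∀ f, D' (algebraMap L _ f) = algebraMap L _ (D f)) → ∀ j, D' (x' j) = 0 := by
    intro D hD D' hD' j
    by_contra hcon
    obtain ⟨a, b, j1, hab, hb1, hDa, hDb, hτ⟩ := line_const Pool.Agent.Y141.NT.stCB2 hx0 hgen hm1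
      hm hne hT D hD D' hD' ⟨j, hcon⟩
    have h2 := form_const (K := IntermediateField.adjoin L (Set.range x)) htrF hab
      (fun j => by rw [hD', hDa, map_zero]) (fun j => by rw [hD', hDb, map_zero]) hτ
      (by rw [hd', hd]) hq hη' hηr' h0' j1
    rw [hb1, map_one] at h2
    exact one_ne_zero h2
  obtain ⟨s, hs0, hs⟩ := exists_ratios_d (d := d) hL (by rw [hd', hd]) T hT0 hsep
  exact kod_ratios hE hθr hs0 hs

end

section

variable {K : Type} [Field K] [Algebra ℂ K] {n N M d : ℕ}

/-- **The core, for degrees up to `M`, over a base which has a nonzero pluricanonical form.** -/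
theorem core_form [Algebra.EssFiniteType ℂ K] (htr : Algebra.trdeg ℂ K = n) {t : Fin N → K}
    (hd : Algebra.trdeg ℂ (IntermediateField.adjoin ℂ (Set.range t)) = (d : ℕ))
    {L : Type} [Field L] [Algebra ℂ L] [Algebra L K] [IsScalarTower ℂ L K]
    [FiniteDimensional L K] {ω : (Fin n → Derivation ℂ K K) → K} (hω : IsTwisted n M t ω)
    (htn : TraceNe ω ((IntermediateField.adjoin L (Set.range t)).restrictScalars ℂ))
    (hM : 1 ≤ M) (hdeg : Module.finrank L (IntermediateField.adjoin L (Set.range t)) ≤ M)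
    (hκ : Pool.Agent.W602.GT.KodGe ℂ (IntermediateField.adjoin ℂ (Set.range t)) d
      (fun _ => False) 0) :
    Pool.Agent.W619.Y.KodTrB ℂ L n (fun _ => False) d := by
  classical
  have hessL : Algebra.EssFiniteType ℂ L := Pool.Agent.TH466.QG.ess_below (K := K)
  have hL : Algebra.trdeg ℂ L = n := Pool.Agent.Y184.NT.trdeg_below (K := K) htr
  obtain ⟨x, y, E, E', hx0, hxt, hadj, hadjC, hy, hE, hE', hne, hreg⟩ := core_red htr hω htn
  rw [← hadj] at hdeg
  rw [← hadjC] at hd hκ
  obtain ⟨q, hq, η, hη, D, hD, -⟩ := hκ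
  exact kod_form hL hx0 hω.1 hreg hd hy hE hE' hM hdeg hne hq (hη 0).1
    (fun P hP => (hη 0).2.2 P hP fun h => h) ⟨D, hD⟩

end

end Pool.Agent.K4H25.AB
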