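import Pool.Agent.R882.TRat

/-!
The ratios of the traces for maps whose degree is at most the degree of the forms: the vector fields
which preserve the ratios move the points along lines.
-/

set_option autoImplicit false
set_option linter.unusedSectionVars false
set_option linter.overlappingInstances false

open FF Module Pool.Agent.W602.GT Pool.Agent.W603.LV Pool.Agent.W619.PQ Pool.Agent.Y172
open Pool.Agent.Y184.NT

namespace Pool.Agent.K4H25.AB

open Pool.Agent.Y954.NT (exists_lift trace_der rel2)

/-- A vector field which preserves the ratios of the traces moves the points of a fibre along a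
line. -/
theorem line_dir (hCB2 : StCB2) {L K : Type} [Field L] [Field K] [Algebra ℂ L] [Algebra ℂ K]
    [Algebra L K] [IsScalarTower ℂ L K] [FiniteDimensional L K] {N m : ℕ}
    {x : Fin N → K} {j0 : Fin N} (hj0 : x j0 = 1)
    (hgenL : IntermediateField.adjoin L (Set.range x) = ⊤) (hm : 1 ≤ m)
    (hfin : Module.finrank L K ≤ m)
    {h : K} (hh : h ≠ 0) {T : (Fin m → Fin N) → L}
    (hT : ∀ f, T f = Algebra.trace L K ((∏ k, x (f k)) * h)) (D : Derivation ℂ L L)
    (hTD : ∀ f g, T f * D (T g) = T g * D (T f)) (D' : Derivation ℂ K K)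
    (hD' : ∀ f, D' (algebraMap L K f) = algebraMap L K (D f)) (hx : ∃ j, D' (x j) ≠ 0) :
    2 ≤ Module.finrank L K ∧ ∀ σ σ' : K →ₐ[L] AlgebraicClosure L, σ ≠ σ' →
      ∃ c : AlgebraicClosure L, ∀ j, σ (D' (x j)) = c * (σ (x j) - σ' (x j)) := by
  classical
  have hchar : CharZero L := charZero_of_injective_algebraMap (algebraMap ℂ L).injective
  let Ω := AlgebraicClosure L
  have hcard : Fintype.card (K →ₐ[L] Ω) = finrank L K := AlgHom.card L K Ω
  have hpos : 0 < finrank L K := finrank_pos
  -- a nonzero trace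
  obtain ⟨g, hg⟩ : ∃ g, T g ≠ 0 := by
    by_contra hcon
    push Not at hcon
    have h1 := (Pool.Agent.Y614.NT.stLine Pool.Agent.Y153.NT.stCB L K N m x j0 hj0 hgenL h hh
      (fun f => by rw [← hT, hcon]) (by omega)).1
    omega
  obtain ⟨lam, hlam⟩ : ∃ lam : L, ∀ f, D (T f) = lam * T f := by
    refine ⟨D (T g) / T g, fun f => ?_⟩
    have h1 := hTD f g
    rw [div_mul_eq_mul_div, eq_div_iff hg]
    linear_combination -h1
  have hx0 : D' (x j0) = 0 := by
    rw [hj0]
    exact D'.map_one_eq_zero
  -- the relation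
  have htr : ∀ f : Fin m → Fin N, Algebra.trace L K ((D' h - algebraMap L K lam * h) *
      ∏ k, x (f k) + h * ∑ j, D' (x (f j)) * ∏ k ∈ Finset.univ.erase j, x (f k)) = 0 := by
    intro f
    have hprod : ∀ s : Finset (Fin m), D' (∏ k ∈ s, x (f k)) =
        ∑ j ∈ s, D' (x (f j)) * ∏ k ∈ s.erase j, x (f k) := by
      intro s
      induction s using Finset.induction_on with
      | empty => simp [D'.map_one_eq_zero]
      | insert i s hi ih =>
        rw [Finset.prod_insert hi, D'.leibniz, ih, Finset.sum_insert hi, Finset.erase_insert hi,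
          smul_eq_mul, smul_eq_mul, Finset.mul_sum, add_comm, mul_comm (∏ k ∈ s, x (f k))]
        congr 1
        refine Finset.sum_congr rfl fun j hj => ?_
        have hji : i ≠ j := fun e => hi (e ▸ hj)
        rw [Finset.erase_insert_of_ne hji, Finset.prod_insert
          (fun e => hi (Finset.mem_of_mem_erase e))]
        ring
    have h1 : D' ((∏ k, x (f k)) * h) = D' h * ∏ k, x (f k) +
        h * ∑ j, D' (x (f j)) * ∏ k ∈ Finset.univ.erase j, x (f k) := by
      rw [D'.leibniz, hprod, smul_eq_mul, smul_eq_mul]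
      ring
    have h2 := trace_der hD' ((∏ k, x (f k)) * h)
    rw [← hT, hlam, h1] at h2
    have h3 : (D' h - algebraMap L K lam * h) * ∏ k, x (f k) +
        h * ∑ j, D' (x (f j)) * ∏ k ∈ Finset.univ.erase j, x (f k) =
        (D' h * ∏ k, x (f k) + h * ∑ j, D' (x (f j)) * ∏ k ∈ Finset.univ.erase j, x (f k)) -
        lam • ((∏ k, x (f k)) * h) := by
      rw [Algebra.smul_def]
      ring
    rw [h3, map_sub, map_smul, h2, ← hT, smul_eq_mul, sub_self]
  obtain ⟨hm2, hspan⟩ := hCB2 Ω N (K →ₐ[L] Ω) m Finset.univ (fun σ j => σ (x j))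
    (fun σ j => σ (D' (x j))) (fun σ => σ (D' h - algebraMap L K lam * h)) (fun σ => σ h)
    (by
      rw [← Finset.card_pos, Finset.card_univ, hcard]
      exact finrank_pos)
    (fun σ _ => by
      rw [_root_.map_ne_zero]
      exact hh)
    (fun σ _ => by
      rw [LinearIndependent.pair_iff]
      intro s t hst
      have h1 := congrFun hst j0
      simp only [Pi.add_apply, Pi.smul_apply, smul_eq_mul, hj0, map_one, mul_one,
        Pi.zero_apply, D'.map_one_eq_zero, map_zero, mul_zero, add_zero] at h1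
      obtain ⟨j, hj⟩ := hx
      have h2 := congrFun hst j
      simp only [Pi.add_apply, Pi.smul_apply, smul_eq_mul, Pi.zero_apply, h1, zero_mul,
        zero_add] at h2
      exact ⟨h1, (mul_eq_zero.1 h2).resolve_right fun e => hj ((_root_.map_eq_zero σ).1 e)⟩)
    (fun σ _ σ' _ hne => by
      rw [LinearIndependent.pair_iff]
      intro s t hst
      have h1 := congrFun hst j0
      simp only [Pi.add_apply, Pi.smul_apply, smul_eq_mul, hj0, map_one, mul_one,
        Pi.zero_apply] at h1
      have h2 : t = -s := by linear_combination h1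
      subst h2
      by_cases hs : s = 0
      · simp [hs]
      · exfalso
        apply hne
        apply Pool.Agent.Y614.NT.emb_ext x hgenL
        intro j
        have h3 := congrFun hst j
        simp only [Pi.add_apply, Pi.smul_apply, smul_eq_mul, Pi.zero_apply] at h3
        have h4 : s * (σ (x j) - σ' (x j)) = 0 := by linear_combination h3
        rcases mul_eq_zero.1 h4 with h5 | h5
        · exact absurd h5 hs
        · exact sub_eq_zero.1 h5)
    (fun l => rel2 x (fun j => D' (x j)) h _ htr l)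
    (by rw [Finset.card_univ, hcard]; omega)
  rw [Finset.card_univ, hcard] at hm2
  refine ⟨by omega, fun σ σ' hne => ?_⟩
  have h1 := (hspan σ (Finset.mem_univ _) σ' (Finset.mem_univ _) hne σ (Finset.mem_univ _)).2
  rw [Submodule.mem_span_pair] at h1
  obtain ⟨a, b, hab⟩ := h1
  refine ⟨a, fun j => ?_⟩
  have h2 := congrFun hab j0
  simp only [Pi.add_apply, Pi.smul_apply, smul_eq_mul, hj0, map_one, mul_one,
    D'.map_one_eq_zero, map_zero] at h2
  have h3 := congrFun hab j
  simp only [Pi.add_apply, Pi.smul_apply, smul_eq_mul] at h3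
  rw [← h3]
  linear_combination σ' (x j) * h2

/-- The directions of the vector fields which preserve the ratios of the traces are proportional. -/
theorem prop_dir (hCB2 : StCB2) {L K : Type} [Field L] [Field K] [Algebra ℂ L] [Algebra ℂ K]
    [Algebra L K] [IsScalarTower ℂ L K] [FiniteDimensional L K] {N m : ℕ}
    {x : Fin N → K} {j0 : Fin N} (hj0 : x j0 = 1)
    (hgenL : IntermediateField.adjoin L (Set.range x) = ⊤) (hm : 1 ≤ m)
    (hfin : Module.finrank L K ≤ m)
    {h : K} (hh : h ≠ 0) {T : (Fin m → Fin N) → L}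
    (hT : ∀ f, T f = Algebra.trace L K ((∏ k, x (f k)) * h)) {D₁ D₂ : Derivation ℂ L L}
    (hTD₁ : ∀ f g, T f * D₁ (T g) = T g * D₁ (T f))
    (hTD₂ : ∀ f g, T f * D₂ (T g) = T g * D₂ (T f)) {D₁' D₂' : Derivation ℂ K K}
    (hD₁ : ∀ f, D₁' (algebraMap L K f) = algebraMap L K (D₁ f))
    (hD₂ : ∀ f, D₂' (algebraMap L K f) = algebraMap L K (D₂ f)) (i j : Fin N) :
    D₁' (x i) * D₂' (x j) = D₁' (x j) * D₂' (x i) := by
  classical
  have hchar : CharZero L := charZero_of_injective_algebraMap (algebraMap ℂ L).injective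
  by_cases h1 : ∃ j, D₁' (x j) ≠ 0
  swap
  · push Not at h1
    rw [h1, h1, zero_mul, zero_mul]
  by_cases h2 : ∃ j, D₂' (x j) ≠ 0
  swap
  · push Not at h2
    rw [h2, h2, mul_zero, mul_zero]
  obtain ⟨hc, hl1⟩ := line_dir hCB2 hj0 hgenL hm hfin hh hT D₁ hTD₁ D₁' hD₁ h1
  obtain ⟨-, hl2⟩ := line_dir hCB2 hj0 hgenL hm hfin hh hT D₂ hTD₂ D₂' hD₂ h2
  have hcard : Fintype.card (K →ₐ[L] AlgebraicClosure L) = finrank L K :=
    AlgHom.card L K (AlgebraicClosure L)
  have hnt : 1 < Fintype.card (K →ₐ[L] AlgebraicClosure L) := by omega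
  obtain ⟨σ, σ', hne⟩ := Fintype.exists_pair_of_one_lt_card hnt
  obtain ⟨c1, hc1⟩ := hl1 σ σ' hne
  obtain ⟨c2, hc2⟩ := hl2 σ σ' hne
  apply σ.toRingHom.injective
  change σ (D₁' (x i) * D₂' (x j)) = σ (D₁' (x j) * D₂' (x i))
  rw [map_mul, map_mul, hc1, hc1, hc2, hc2]
  ring

/-- The derivations of `K` are combinations of extensions of derivations of `L`; the coefficient
derivations kill the elements of `L` which are killed by the derivation. -/
theorem der_decomp {L K : Type} [Field L] [Field K] [Algebra ℂ L] [Algebra ℂ K]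
    [Algebra L K] [IsScalarTower ℂ L K] [FiniteDimensional L K] (D' : Derivation ℂ K K) :
    ∃ (r : ℕ) (b : Fin r → K) (D : Fin r → Derivation ℂ L L) (DK : Fin r → Derivation ℂ K K),
      (∀ l f, DK l (algebraMap L K f) = algebraMap L K (D l f)) ∧
      (∀ l f, D' (algebraMap L K f) = 0 → D l f = 0) ∧ ∀ z, D' z = ∑ l, b l * DK l z := by
  classical
  let b := Module.finBasis L K
  let D : Fin (Module.finrank L K) → Derivation ℂ L L := fun l =>
    { toFun := fun f => b.coord l (D' (algebraMap L K f))
      map_add' := fun f g => by rw [map_add, map_add, map_add]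
      map_smul' := fun c f => by
        rw [Algebra.smul_def, map_mul, D'.leibniz, ← IsScalarTower.algebraMap_apply ℂ L K,
          D'.map_algebraMap, smul_zero, add_zero, smul_eq_mul, IsScalarTower.algebraMap_apply ℂ L K,
          ← Algebra.smul_def, map_smul, smul_eq_mul, RingHom.id_apply, Algebra.smul_def]
      map_one_eq_zero' := by
        change b.coord l (D' (algebraMap L K 1)) = 0
        rw [map_one, D'.map_one_eq_zero, map_zero]
      leibniz' := fun f g => by
        change b.coord l (D' (algebraMap L K (f * g))) =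
          f • b.coord l (D' (algebraMap L K g)) + g • b.coord l (D' (algebraMap L K f))
        rw [map_mul, D'.leibniz, map_add, smul_eq_mul, smul_eq_mul, ← Algebra.smul_def,
          ← Algebra.smul_def, map_smul, map_smul] }
  have hcL : CharZero L := charZero_of_injective_algebraMap (algebraMap ℂ L).injective
  choose DK hDK using fun l => Pool.Agent.Y954.NT.exists_lift (K := K) (D l)
  have hsum : ∀ (s : Finset (Fin (Module.finrank L K))) (z : K),
      (∑ l ∈ s, b l • DK l) z = ∑ l ∈ s, b l * DK l z := by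
    intro s z
    induction s using Finset.induction_on with
    | empty => rw [Finset.sum_empty, Finset.sum_empty]; rfl
    | insert i s hi ih =>
      rw [Finset.sum_insert hi, Finset.sum_insert hi, Derivation.add_apply, ih,
        Derivation.smul_apply, smul_eq_mul]
  refine ⟨_, fun l => b l, D, DK, hDK, fun l f hf => ?_, ?_⟩
  · change b.coord l (D' (algebraMap L K f)) = 0
    rw [hf, map_zero]
  · have h2 : ∀ f : L, (D' - ∑ l, b l • DK l) (algebraMap L K f) = 0 := by
      intro f
      rw [Derivation.sub_apply, hsum, sub_eq_zero]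
      conv_lhs => rw [← b.sum_repr (D' (algebraMap L K f))]
      refine Finset.sum_congr rfl fun l _ => ?_
      rw [hDK, Algebra.smul_def, mul_comm]
      rfl
    intro z
    have h3 : (D' - ∑ l, b l • DK l) z = 0 := by
      refine Pool.Agent.R882.WR.der_alg (E := (⊥ : IntermediateField L K).restrictScalars ℂ) _
        ?_ ?_
      · intro c hc
        obtain ⟨f, rfl⟩ := IntermediateField.mem_bot.1 hc
        exact h2 f
      · obtain ⟨p, hp0, hp⟩ : IsAlgebraic L z := Algebra.IsAlgebraic.isAlgebraic z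
        let φ : L →+* ((⊥ : IntermediateField L K).restrictScalars ℂ) :=
          (algebraMap L K).codRestrict _ fun f => IntermediateField.mem_bot.2 ⟨f, rfl⟩
        refine ⟨p.map φ, (Polynomial.map_ne_zero_iff φ.injective).2 hp0, ?_⟩
        rw [Polynomial.aeval_def, Polynomial.eval₂_map]
        exact hp
    rw [Derivation.sub_apply, sub_eq_zero, hsum] at h3
    exact h3

/-- One coordinate controls the directions of the vector fields which kill the ratios of the
traces. -/
theorem exists_coord (hCB2 : StCB2) {L K : Type} [Field L] [Field K] [Algebra ℂ L] [Algebra ℂ K]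
    [Algebra L K] [IsScalarTower ℂ L K] [FiniteDimensional L K] {N m : ℕ}
    {x : Fin N → K} {j0 : Fin N} (hj0 : x j0 = 1)
    (hgenL : IntermediateField.adjoin L (Set.range x) = ⊤) (hm : 1 ≤ m)
    (hfin : Module.finrank L K ≤ m)
    {h : K} (hh : h ≠ 0) {T : (Fin m → Fin N) → L}
    (hT : ∀ f, T f = Algebra.trace L K ((∏ k, x (f k)) * h)) {f0 : Fin m → Fin N}
    (hf0 : T f0 ≠ 0) :
    ∃ i0 : Fin N, ∀ D' : Derivation ℂ K K, (∀ g, D' (algebraMap L K (T g / T f0)) = 0) →
      D' (x i0) = 0 → ∀ j, D' (x j) = 0 := by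
  classical
  -- derivations of `L` which kill the ratios
  have hrat : ∀ D : Derivation ℂ L L, (∀ g, D (T g / T f0) = 0) →
      ∀ f g, T f * D (T g) = T g * D (T f) := by
    intro D hD f g
    have h1 : ∀ g, T f0 * D (T g) = T g * D (T f0) := by
      intro g
      have h2 : T g = T g / T f0 * T f0 := by field_simp
      have h3 : D (T g) = T g / T f0 * D (T f0) := by
        conv_lhs => rw [h2, D.leibniz, hD g, smul_zero, add_zero, smul_eq_mul]
      rw [h3]
      field_simp
    have h4 : T f0 * (T f * D (T g)) = T f0 * (T g * D (T f)) := by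
      have h5 := h1 g
      have h6 := h1 f
      linear_combination T f * h5 - T g * h6
    exact mul_left_cancel₀ hf0 h4
  by_cases hex : ∃ (D₁ : Derivation ℂ L L) (D₁' : Derivation ℂ K K) (i0 : Fin N),
      (∀ g, D₁ (T g / T f0) = 0) ∧ (∀ f, D₁' (algebraMap L K f) = algebraMap L K (D₁ f)) ∧
      D₁' (x i0) ≠ 0
  · obtain ⟨D₁, D₁', i0, hD₁, hD₁', hi0⟩ := hex
    refine ⟨i0, fun D' hD' h0 j => ?_⟩
    obtain ⟨r, b, D, DK, hDK, hk, hsum⟩ := der_decomp (L := L) D'
    have h1 : D' (x j) * D₁' (x i0) = D' (x i0) * D₁' (x j) := by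
      rw [hsum, hsum, Finset.sum_mul, Finset.sum_mul]
      refine Finset.sum_congr rfl fun l _ => ?_
      have h2 := prop_dir hCB2 hj0 hgenL hm hfin hh hT (hrat (D l) fun g => hk l _ (hD' g))
        (hrat D₁ hD₁) (hDK l) hD₁' j i0
      rw [mul_assoc, h2, mul_assoc]
    rw [h0, zero_mul] at h1
    exact (mul_eq_zero.1 h1).resolve_right hi0
  · push Not at hex
    refine ⟨j0, fun D' hD' _ j => ?_⟩
    obtain ⟨r, b, D, DK, hDK, hk, hsum⟩ := der_decomp (L := L) D'
    rw [hsum]
    refine Finset.sum_eq_zero fun l _ => ?_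
    rw [hex (D l) (DK l) j (fun g => hk l _ (hD' g)) (hDK l), mul_zero]

open IntermediateField.algebraAdjoinAdjoin in
/-- Algebraically independent ratios, one less than the number of independent coordinates. -/
theorem exists_ratios_line {L K : Type} [Field L] [Field K] [Algebra ℂ L] [Algebra ℂ K]
    [Algebra L K] [IsScalarTower ℂ L K] [FiniteDimensional L K] [Algebra.EssFiniteType ℂ K]
    {n d N : ℕ} (hL : Algebra.trdeg ℂ L = n) {x : Fin N → K}
    (hd : Algebra.trdeg ℂ (IntermediateField.adjoin ℂ (Set.range x)) = (d + 1 : ℕ)) {ι : Type}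
    (T : ι → L) {f0 : ι} (hf0 : T f0 ≠ 0) {i0 : Fin N}
    (hC : ∀ D' : Derivation ℂ K K, (∀ g, D' (algebraMap L K (T g / T f0)) = 0) →
      D' (x i0) = 0 → ∀ j, D' (x j) = 0) :
    ∃ s : Fin (d + 1) → ι, T (s 0) ≠ 0 ∧
      AlgebraicIndependent ℂ (fun i : Fin d => T (s i.succ) / T (s 0)) := by
  classical
  have hcL : CharZero L := charZero_of_injective_algebraMap (algebraMap ℂ L).injective
  have hK : Algebra.trdeg ℂ K = n := by
    rw [← hL, ← trdeg_add_eq ℂ L (A := K), trdeg_eq_zero (R := L) (A := K), add_zero]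
  -- a transcendence basis of the field of the coordinates
  obtain ⟨t, htx, htind, htalg⟩ := Pool.Agent.R885.exists_mono_basis (G := Set.range x) hd
  have htu : AlgebraicIndepOn ℂ id (Set.range t) := htind.coe_range
  have hauniv : Algebra.IsAlgebraic (Algebra.adjoin ℂ (Set.univ : Set K)) K := by
    constructor
    intro z
    exact isAlgebraic_algebraMap (A := K)
      (⟨z, Algebra.subset_adjoin (Set.mem_univ z)⟩ : Algebra.adjoin ℂ (Set.univ : Set K))
  obtain ⟨u, htu', -, hu⟩ := exists_isTranscendenceBasis_between (R := ℂ) (Set.range t)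
    Set.univ (Set.subset_univ _) htu
  have hucard : Cardinal.mk u = n := by
    rw [hu.cardinalMk_eq_trdeg, hK]
  have hufin : u.Finite := by
    rw [← Set.finite_coe_iff, ← Cardinal.lt_aleph0_iff_finite, hucard]
    exact Cardinal.natCast_lt_aleph0
  have hun : u.ncard = n := by
    have h1 : ((u.ncard : ℕ) : Cardinal) = Cardinal.mk u := Set.cast_ncard hufin
    rw [hucard] at h1
    exact_mod_cast h1
  have hdn : d + 1 ≤ n := by
    have h1 := htind.cardinalMk_le_trdeg
    rw [hK, Cardinal.mk_fin] at h1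
    exact_mod_cast h1
  obtain ⟨Z, hZ⟩ : ∃ Z : Set K, Z = insert (x i0) (u \ Set.range t) := ⟨_, rfl⟩
  have hZfin : Z.Finite := by
    rw [hZ]
    exact (hufin.subset Set.sdiff_subset).insert _
  have hZcard : Z.ncard ≤ n - d := by
    have h1 : (u \ Set.range t).ncard = n - (d + 1) := by
      rw [Set.ncard_sdiff htu' (Set.finite_range t), hun]
      congr 1
      rw [← Set.image_univ, Set.ncard_image_of_injective _ htind.injective, Set.ncard_univ,
        Nat.card_eq_fintype_card, Fintype.card_fin]
    have h2 := Set.ncard_insert_le (x i0) (u \ Set.range t)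
    rw [← hZ, h1] at h2
    omega
  obtain ⟨R, hR⟩ : ∃ R : Set K, R = Set.range fun g => algebraMap L K (T g / T f0) := ⟨_, rfl⟩
  obtain ⟨E0, hE0⟩ : ∃ E0 : IntermediateField ℂ K, E0 = IntermediateField.adjoin ℂ (R ∪ Z) :=
    ⟨_, rfl⟩
  have hfin : FiniteDimensional E0 K := Pool.Agent.Y888.NT.stFin K E0 fun D' hD' => by
    have hmemR : ∀ g, D' (algebraMap L K (T g / T f0)) = 0 := fun g => hD' _ (by
      rw [hE0]
      exact IntermediateField.subset_adjoin _ _ (Or.inl (by rw [hR]; exact ⟨g, rfl⟩)))
    have hmemZ : ∀ z ∈ Z, D' z = 0 := fun z hz => hD' _ (by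
      rw [hE0]
      exact IntermediateField.subset_adjoin _ _ (Or.inr hz))
    have h0 : ∀ j, D' (x j) = 0 := hC D' hmemR (hmemZ _ (by rw [hZ]; exact Set.mem_insert _ _))
    have h1 : ∀ z ∈ u, D' z = 0 := by
      intro z hz
      by_cases hzt : z ∈ Set.range t
      · obtain ⟨i, rfl⟩ := hzt
        obtain ⟨j, hj⟩ := htx i
        rw [← hj]
        exact h0 j
      · exact hmemZ z (by rw [hZ]; exact Set.mem_insert_of_mem _ ⟨hz, hzt⟩)
    have h2 : ∀ c ∈ IntermediateField.adjoin ℂ u, D' c = 0 := by
      have hUfin := hufin.to_subtype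
      have hUft := Fintype.ofFinite u
      obtain ⟨e⟩ : Nonempty (Fin (Fintype.card u) ≃ u) := ⟨(Fintype.equivFin u).symm⟩
      have h3 := Pool.Agent.R882.WR.der_adjoin (x := fun i => ((e i : u) : K)) D'
        fun i => h1 _ (e i).2
      have h4 : Set.range (fun i => ((e i : u) : K)) = u := by
        ext z
        constructor
        · rintro ⟨i, rfl⟩
          exact (e i).2
        · intro hz
          exact ⟨e.symm ⟨z, hz⟩, by simp⟩
      rw [h4] at h3
      exact h3
    ext τ
    refine Pool.Agent.R882.WR.der_alg D' h2 ?_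
    have h4 : IsAlgebraic (Algebra.adjoin ℂ (Set.range ((↑) : u → K))) τ :=
      hu.isAlgebraic.isAlgebraic τ
    rw [Subtype.range_coe] at h4
    exact (IsFractionRing.isAlgebraic_iff (Algebra.adjoin ℂ u)
      (IntermediateField.adjoin ℂ u) K).1 h4
  have h1 : Algebra.IsAlgebraic (IntermediateField.adjoin ℂ (R ∪ Z)) K := by
    rw [← hE0]
    infer_instance
  have h2 : Algebra.IsAlgebraic (Algebra.adjoin ℂ (R ∪ Z)) K :=
    (IsFractionRing.comap_isAlgebraic_iff (A := Algebra.adjoin ℂ (R ∪ Z))
      (K := IntermediateField.adjoin ℂ (R ∪ Z)) (C := K)).2 h1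
  obtain ⟨B, hB, hb⟩ := exists_isTranscendenceBasis_subset (R := ℂ) (R ∪ Z)
  have hBcard := hb.cardinalMk_eq_trdeg
  rw [hK] at hBcard
  have hBfin : B.Finite := by
    rw [← Set.finite_coe_iff, ← Cardinal.lt_aleph0_iff_finite, hBcard]
    exact Cardinal.natCast_lt_aleph0
  have hBn : B.ncard = n := by
    have h1 : ((B.ncard : ℕ) : Cardinal) = Cardinal.mk B := Set.cast_ncard hBfin
    rw [hBcard] at h1
    exact_mod_cast h1
  have hBZ : d ≤ (B \ Z).ncard := by
    have h3 := Set.le_ncard_sdiff Z B hZfin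
    rw [hBn] at h3
    omega
  obtain ⟨B', hB', hB'card⟩ := Set.exists_subset_card_eq hBZ
  have hB'fin : B'.Finite := (hBfin.subset Set.sdiff_subset).subset hB'
  have hft : Fintype B' := hB'fin.fintype
  have hc : Fintype.card B' = d := by
    rw [← Nat.card_eq_fintype_card, Nat.card_coe_set_eq]
    exact hB'card
  obtain ⟨e⟩ : Nonempty (Fin d ≃ B') := ⟨(Fintype.equivFinOfCardEq hc).symm⟩
  have h5 : ∀ i : Fin d, ∃ g, algebraMap L K (T g / T f0) = ((e i : B') : K) := by
    intro i
    have h6 := hB' (e i).2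
    have h7 := (hB h6.1).resolve_right h6.2
    rw [hR] at h7
    exact h7
  choose s hs using h5
  refine ⟨Fin.cons f0 s, by simpa using hf0, ?_⟩
  have h6 : AlgebraicIndependent ℂ (fun i : Fin d =>
      (((⟨(e i : K), (hB' (e i).2).1⟩ : B) : B) : K)) := by
    refine hb.1.comp (fun i : Fin d => (⟨(e i : K), (hB' (e i).2).1⟩ : B)) ?_
    intro i j hij
    have h7 := congrArg (fun z : B => (z : K)) hij
    exact e.injective (Subtype.ext h7)
  have h7 : AlgebraicIndependent ℂ (fun i : Fin d =>
      IsScalarTower.toAlgHom ℂ L K (T (s i) / T f0)) := by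
    convert h6 using 1
    funext i
    exact hs i
  have h8 : AlgebraicIndependent ℂ (fun i : Fin d => T (s i) / T f0) :=
    AlgebraicIndependent.of_comp (IsScalarTower.toAlgHom ℂ L K) h7
  have h9 : (fun i : Fin d => T ((Fin.cons f0 s : Fin (d + 1) → ι) i.succ) /
      T ((Fin.cons f0 s : Fin (d + 1) → ι) 0)) = fun i : Fin d => T (s i) / T f0 := by
    funext i
    rw [Fin.cons_succ, Fin.cons_zero]
  rw [h9]
  exact h8

end Pool.Agent.K4H25.AB
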