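import Pool.Agent.K4H25.AB.Base
import Pool.Agent.R882.KF

/-!
Fibrations by curves: images of degree at most the degree of the forms.
-/

set_option autoImplicit false
set_option linter.unusedSectionVars false
set_option linter.overlappingInstances false

open FF Module Pool.Agent Pool.Agent.W602.GT Pool.Agent.R885
open Pool.Agent.W619.PQ (IsUniruled)

namespace Pool.Agent.K4H25.AB

/-- Any fibre dimension. -/
theorem main_any {n N M d : ℕ} (hM : 1 ≤ M) {K : Type} [Field K] [Algebra ℂ K]
    [Algebra.EssFiniteType ℂ K] (hK : Algebra.trdeg ℂ K = n) {t : Fin N → K}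
    (hd : Algebra.trdeg ℂ (IntermediateField.adjoin ℂ (Set.range t)) = d)
    (L : Type) [Field L] [Algebra ℂ L] [Algebra L K] [IsScalarTower ℂ L K]
    [FiniteDimensional L K] {ω : (Fin n → Derivation ℂ K K) → K}
    (hω : Pool.Agent.R882.LT.IsTwisted n M t ω)
    (htr : Pool.Agent.R882.LT.TraceNe ω
      ((IntermediateField.adjoin L (Set.range t)).restrictScalars ℂ))
    (hm : Module.finrank L (IntermediateField.adjoin L (Set.range t)) ≤ M) :
    (∀ r, r + 1 = d → KodGe ℂ L n (fun _ => False) r) ∧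
    (KodGe ℂ (IntermediateField.adjoin ℂ (Set.range t)) d (fun _ => False) 0 →
      KodGe ℂ L n (fun _ => False) d) := by
  refine ⟨?_, fun hκ => ?_⟩
  · rintro r rfl
    exact Pool.Agent.R882.KR.kodGe_of_tr (core_line hK hd hω htr hM hm)
  · exact Pool.Agent.R882.KR.kodGe_of_tr (core_form hK hd hω htr hM hm hκ)

section

variable {n N M : ℕ} {K : Type} [Field K] [Algebra ℂ K] [Algebra.EssFiniteType ℂ K]
  {t : Fin N → K} {J : Type} [Finite J] {ω : J → (Fin (n + 1) → Derivation ℂ K K) → K}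

theorem reg_of_twisted {ω : (Fin (n + 1) → Derivation ℂ K K) → K}
    (hω : Pool.Agent.R882.LT.IsTwisted (n + 1) M t ω) (P : Place ℂ K)
    (hP : Divisorial (n + 1) P) : RegAt P ω := by
  intro D hD
  have h1 := hω.2 0 (by simp) P hP D hD
  simpa using h1

/-- If all traces vanish then the image is uniruled. -/
theorem uniruled_of (hK : Algebra.trdeg ℂ K = (n + 1 : ℕ))
    (hd : Algebra.trdeg ℂ (IntermediateField.adjoin ℂ (Set.range t)) = (n : ℕ))
    (hcl : ∀ g : K, IsAlgebraic (IntermediateField.adjoin ℂ (Set.range t)) g →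
      g ∈ IntermediateField.adjoin ℂ (Set.range t))
    (hp : ∀ j, IsPluri 1 (ω j))
    (hreg : ∀ j (P : Place ℂ K), Divisorial (n + 1) P → RegAt P (ω j))
    (hspan : Pool.Agent.R882.GL.SpanFib (IntermediateField.adjoin ℂ (Set.range t)) ω)
    (L : Type) [Field L] [Algebra ℂ L] [Algebra L K] [IsScalarTower ℂ L K]
    [FiniteDimensional L K]
    (h : ∀ p, ¬ Pool.Agent.R882.LT.TraceNe (ω p)
      ((IntermediateField.adjoin L (Set.range t)).restrictScalars ℂ)) :
    IsUniruled ℂ L (n + 1) := by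
  classical
  have hle : IntermediateField.adjoin ℂ (Set.range t) ≤
      (IntermediateField.adjoin L (Set.range t)).restrictScalars ℂ := by
    rw [IntermediateField.adjoin_le_iff]
    exact IntermediateField.subset_adjoin L _
  obtain ⟨E', hE'⟩ : ∃ E' : IntermediateField (IntermediateField.adjoin ℂ (Set.range t)) K,
      E' = IntermediateField.extendScalars hle := ⟨_, rfl⟩
  have hE'r : E'.restrictScalars ℂ =
      (IntermediateField.adjoin L (Set.range t)).restrictScalars ℂ := by
    rw [hE']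
    exact IntermediateField.extendScalars_restrictScalars hle
  have hfinE : FiniteDimensional E' K := by
    have h1 : FiniteDimensional (IntermediateField.adjoin L (Set.range t)) K := inferInstance
    rw [hE']
    exact h1
  have h1 := Pool.Agent.R882.GL.dich hK _ hd hcl E' ω hp hreg hspan
    (fun p => by rw [hE'r]; exact h p)
  rw [hE'r] at h1
  obtain ⟨C, i1, i2, hC, htr, ⟨ψ⟩⟩ := h1
  let φ : L →ₐ[ℂ] ((IntermediateField.adjoin L (Set.range t)).restrictScalars ℂ :
      IntermediateField ℂ K) :=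
    { toFun := fun g => ⟨algebraMap L K g,
        (IntermediateField.adjoin L (Set.range t)).algebraMap_mem g⟩
      map_one' := Subtype.ext (map_one _)
      map_mul' := fun a b => Subtype.ext (map_mul _ _ _)
      map_zero' := Subtype.ext (map_zero _)
      map_add' := fun a b => Subtype.ext (map_add _ _ _)
      commutes' := fun c => Subtype.ext (IsScalarTower.algebraMap_apply ℂ L K c).symm }
  exact ⟨C, i1, i2, hC, htr, ⟨ψ.comp φ⟩⟩

/-- the equivalences follow if small geometric genus implies uniruledness -/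
theorem tfae_of {n : ℕ} {L : Type} [Field L] [Algebra ℂ L] [Algebra.EssFiniteType ℂ L]
    (hL : Algebra.trdeg ℂ L = (n + 1 : ℕ))
    (hg : (∀ ω : (Fin (n + 1) → Derivation ℂ L L) → L, IsPluri 1 ω →
      (∀ P : Place ℂ L, Divisorial (n + 1) P → RegAt P ω) → ∀ D, ω D = 0) →
        IsUniruled ℂ L (n + 1)) :
    [∀ ω : (Fin (n + 1) → Derivation ℂ L L) → L, IsPluri 1 ω →
      (∀ P : Place ℂ L, Divisorial (n + 1) P → RegAt P ω) → ∀ D, ω D = 0,
      ¬ KodGe ℂ L (n + 1) (fun _ => False) 0,
      ¬ Psef ℂ L (n + 1) (fun _ => False), IsUniruled ℂ L (n + 1)].TFAE := by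
  tfae_have 1 → 4 := hg
  tfae_have 4 → 3 := fun h h' =>
    (Pool.Agent.W619.Y.uniruled_neg (n + 1) hL h).1 ((Pool.Agent.TH466.QG.psef_iff (n + 1)).1 h')
  tfae_have 3 → 2 := fun h h' => h (psef_of_kodGe h')
  tfae_have 2 → 1 := by
    intro h ω hω hreg D
    by_contra hne
    refine h ⟨1, one_pos, fun _ => ω, fun _ => ⟨hω, fun P hP D' hD' => ?_,
      fun P hP _ => hreg P hP⟩, D, hne, ?_⟩
    · exact hreg P hP D' fun i => Pool.Agent.TH466.QG.derReg_of_log (hD' i)
    · exact algebraicIndependent_empty_type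
  tfae_finish

/-- Fibrations by curves: the equivalences. -/
theorem main_tfae (hK : Algebra.trdeg ℂ K = (n + 1 : ℕ))
    (hd : Algebra.trdeg ℂ (IntermediateField.adjoin ℂ (Set.range t)) = (n : ℕ))
    (hcl : ∀ g : K, IsAlgebraic (IntermediateField.adjoin ℂ (Set.range t)) g →
      g ∈ IntermediateField.adjoin ℂ (Set.range t))
    (hω : ∀ j, Pool.Agent.R882.LT.IsTwisted (n + 1) M t (ω j))
    (hspan : Pool.Agent.R882.GL.SpanFib (IntermediateField.adjoin ℂ (Set.range t)) ω)
    (L : Type) [Field L] [Algebra ℂ L] [Algebra L K] [IsScalarTower ℂ L K]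
    [FiniteDimensional L K]
    (hs : Module.finrank L (IntermediateField.adjoin L (Set.range t)) ≤ M + 1) :
    [∀ ω : (Fin (n + 1) → Derivation ℂ L L) → L, IsPluri 1 ω →
      (∀ P : Place ℂ L, Divisorial (n + 1) P → RegAt P ω) → ∀ D, ω D = 0,
      ¬ KodGe ℂ L (n + 1) (fun _ => False) 0,
      ¬ Psef ℂ L (n + 1) (fun _ => False), IsUniruled ℂ L (n + 1)].TFAE := by
  classical
  have hL : Algebra.trdeg ℂ L = (n + 1 : ℕ) := Pool.Agent.Y184.NT.trdeg_below (K := K) hK
  have hessL : Algebra.EssFiniteType ℂ L := Pool.Agent.TH466.QG.ess_below (K := K)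
  have huni := uniruled_of hK hd hcl (fun j => (hω j).1)
    (fun j P hP => reg_of_twisted (hω j) P hP) hspan L
  refine tfae_of hL fun hg => huni fun p htr => ?_
  obtain ⟨η, hη, hηr, D, hD⟩ :=
    (Pool.Agent.R882.LT.core_img (L := L) hK hd rfl (hω p) htr).1 hs
  exact hD (hg η hη hηr D)

/-- Fibrations by curves: degree at most `(M + 1) / 2`. -/
theorem main_half (hK : Algebra.trdeg ℂ K = (n + 1 : ℕ))
    (hd : Algebra.trdeg ℂ (IntermediateField.adjoin ℂ (Set.range t)) = (n : ℕ))
    (hcl : ∀ g : K, IsAlgebraic (IntermediateField.adjoin ℂ (Set.range t)) g →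
      g ∈ IntermediateField.adjoin ℂ (Set.range t))
    (hω : ∀ j, Pool.Agent.R882.LT.IsTwisted (n + 1) M t (ω j))
    (hspan : Pool.Agent.R882.GL.SpanFib (IntermediateField.adjoin ℂ (Set.range t)) ω)
    (L : Type) [Field L] [Algebra ℂ L] [Algebra L K] [IsScalarTower ℂ L K]
    [FiniteDimensional L K]
    (hs : 2 * Module.finrank L (IntermediateField.adjoin L (Set.range t)) ≤ M + 1) :
    IsUniruled ℂ L (n + 1) ∨ KodGe ℂ L (n + 1) (fun _ => False) n := by
  classical
  have huni := uniruled_of hK hd hcl (fun j => (hω j).1)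
    (fun j P hP => reg_of_twisted (hω j) P hP) hspan L
  by_cases htr : ∃ p, Pool.Agent.R882.LT.TraceNe (ω p)
    ((IntermediateField.adjoin L (Set.range t)).restrictScalars ℂ)
  · right
    obtain ⟨p, htr⟩ := htr
    exact Pool.Agent.R882.KR.kodGe_of_tr
      ((Pool.Agent.R882.LT.core_img (L := L) hK hd rfl (hω p) htr).2 hs)
  · push Not at htr
    exact Or.inl (huni htr)

/-- Fibrations by curves: degree at most `M`. -/
theorem main_curve (hM : 1 ≤ M) (hK : Algebra.trdeg ℂ K = (n + 1 : ℕ))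
    (hd : Algebra.trdeg ℂ (IntermediateField.adjoin ℂ (Set.range t)) = (n : ℕ))
    (hcl : ∀ g : K, IsAlgebraic (IntermediateField.adjoin ℂ (Set.range t)) g →
      g ∈ IntermediateField.adjoin ℂ (Set.range t))
    (hω : ∀ j, Pool.Agent.R882.LT.IsTwisted (n + 1) M t (ω j))
    (hspan : Pool.Agent.R882.GL.SpanFib (IntermediateField.adjoin ℂ (Set.range t)) ω)
    (L : Type) [Field L] [Algebra ℂ L] [Algebra L K] [IsScalarTower ℂ L K]
    [FiniteDimensional L K]
    (hs : Module.finrank L (IntermediateField.adjoin L (Set.range t)) ≤ M) :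
    (∀ r, r + 1 = n → IsUniruled ℂ L (n + 1) ∨ KodGe ℂ L (n + 1) (fun _ => False) r) ∧
    (KodGe ℂ (IntermediateField.adjoin ℂ (Set.range t)) n (fun _ => False) 0 →
      IsUniruled ℂ L (n + 1) ∨ KodGe ℂ L (n + 1) (fun _ => False) n) := by
  classical
  have huni := uniruled_of hK hd hcl (fun j => (hω j).1)
    (fun j P hP => reg_of_twisted (hω j) P hP) hspan L
  by_cases htr : ∃ p, Pool.Agent.R882.LT.TraceNe (ω p)
    ((IntermediateField.adjoin L (Set.range t)).restrictScalars ℂ)
  · obtain ⟨p, htr⟩ := htr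
    obtain ⟨h1, h2⟩ := main_any hM hK hd L (hω p) htr hs
    exact ⟨fun r hr => Or.inr (h1 r hr), fun hκ => Or.inr (h2 hκ)⟩
  · push Not at htr
    exact ⟨fun _ _ => Or.inl (huni htr), fun _ => Or.inl (huni htr)⟩

end

end Pool.Agent.K4H25.AB
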